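import Mathlib

set_option autoImplicit false

namespace Pool.Agent.Results.MP_ab03e0_co.ModFour

open Equiv Equiv.Perm

/-- `op` is a quasigroup operation on `S`: for all `a, b` each of the equations `a x = b` and
`x a = b` has exactly one solution. -/
def IsQuasigroup {S : Type} (op : S → S → S) : Prop :=
  (∀ a b, ∃! x, op a x = b) ∧ (∀ a b, ∃! x, op x a = b)

/-- The sign of the interchange of the two coordinates. -/
lemma sign_swap (S : Type) [Fintype S] [DecidableEq S] :
    sign (prodComm S S : Perm (S × S)) =
      (-1) ^ ((Fintype.card S * Fintype.card S - Fintype.card S) / 2) := by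
  rw [sign_of_pow_two_eq_one]
  · congr 3
    · rw [Fintype.card_prod]
    · have e : Function.fixedPoints (prodComm S S : Perm (S × S)) ≃ S :=
        { toFun := fun p => p.1.1
          invFun := fun a => ⟨(a, a), rfl⟩
          left_inv := by
            rintro ⟨⟨a, b⟩, h⟩
            have h' : (b, a) = (a, b) := h
            simp only [Prod.mk.injEq] at h'
            simp [h'.1]
          right_inv := fun a => rfl }
      exact Fintype.card_congr e
  · ext ⟨a, b⟩ <;> simp [pow_two]

/-- Parity argument: every finite quasigroup with `(xy)y = x(xy)` has order `0` or `1`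
modulo `4`. -/
theorem result (S : Type) [Finite S] [Nonempty S] (op : S → S → S) (hq : IsQuasigroup op)
    (h : ∀ x y : S, op (op x y) y = op x (op x y)) :
    Nat.card S % 4 = 0 ∨ Nat.card S % 4 = 1 := by
  classical
  have := Fintype.ofFinite S
  -- left division: `ld a b` is the solution of `a x = b`
  choose ld hld huniq using hq.1
  have hld' : ∀ a b, op a (ld a b) = b := hld
  have hu : ∀ a b x, op a x = b → x = ld a b := fun a b x hx => huniq a b x hx
  have hrinj : ∀ y a a', op a y = op a' y → a = a' := by
    intro y a a' heq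
    obtain ⟨x, _, hx⟩ := hq.2 y (op a' y)
    rw [hx a heq, hx a' rfl]
  -- for fixed `b`, `a ↦ ld a b` is a permutation
  let σ : S → Perm S := fun b => Equiv.ofBijective (fun a => ld a b) (by
    apply Finite.injective_iff_bijective.mp
    intro a a' haa
    simp only at haa
    apply hrinj (ld a b)
    rw [hld' a b, haa, hld' a' b])
  have hσ : ∀ a b, σ b a = ld a b := fun a b => rfl
  let A : Perm (S × S) := prodCongrLeft σ
  have hA : ∀ a b, A (a, b) = (ld a b, b) := fun a b => rfl
  -- the coordinate change `(a, b) ↦ (a, ab)`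
  let κ : Perm (S × S) := Equiv.ofBijective (fun p => (p.1, op p.1 p.2)) (by
    apply Finite.injective_iff_bijective.mp
    rintro ⟨a, b⟩ ⟨a', b'⟩ heq
    simp only [Prod.mk.injEq] at heq
    obtain ⟨rfl, heq⟩ := heq
    rw [hu a _ b rfl, hu a _ b' rfl, heq])
  have hκ : ∀ a b, κ (a, b) = (a, op a b) := fun a b => rfl
  -- the identity says that `κ` conjugates `(a, b) ↦ (b, ld a b)` to `A`
  have key : κ * ((prodComm S S : Perm (S × S)) * A) = A * κ := by
    ext1 ⟨a, b⟩
    show κ (b, ld a b) = A (a, op a b)
    rw [hκ, hA]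
    have e1 : ld a (op a b) = b := (hu a _ b rfl).symm
    have e2 : op b (ld a b) = op a b := by
      have := h a (ld a b)
      rw [hld'] at this
      exact this
    rw [e1, e2]
  have hs := congrArg sign key
  rw [Perm.sign_mul, Perm.sign_mul, Perm.sign_mul, mul_comm (Perm.sign A) (Perm.sign κ), mul_right_inj,
    mul_eq_right, sign_swap] at hs
  -- conclusion
  rw [Nat.card_eq_fintype_card]
  set n := Fintype.card S with hn
  have heven : Even ((n * n - n) / 2) := by
    by_contra hodd
    rw [Nat.not_even_iff_odd] at hodd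
    rw [hodd.neg_one_pow] at hs
    exact absurd hs (by decide)
  obtain ⟨k, hk⟩ := heven
  have hmod : n % 4 < 4 := Nat.mod_lt _ (by norm_num)
  obtain ⟨q, hq'⟩ : ∃ q, n = 4 * q + n % 4 := ⟨n / 4, by omega⟩
  have hcases : n % 4 = 0 ∨ n % 4 = 1 ∨ n % 4 = 2 ∨ n % 4 = 3 := by omega
  rcases hcases with h0 | h1 | h2 | h3
  · exact Or.inl h0
  · exact Or.inr h1
  · exfalso
    rw [h2] at hq'
    have e : n * n - n = 2 * (2 * (4 * q * q + 3 * q) + 1) := by
      rw [hq']
      have : (4 * q + 2) * (4 * q + 2) = 2 * (2 * (4 * q * q + 3 * q) + 1) + (4 * q + 2) := by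
        ring
      omega
    rw [e, Nat.mul_div_cancel_left _ (by norm_num)] at hk
    omega
  · exfalso
    rw [h3] at hq'
    have e : n * n - n = 2 * (2 * (4 * q * q + 5 * q + 1) + 1) := by
      rw [hq']
      have : (4 * q + 3) * (4 * q + 3) = 2 * (2 * (4 * q * q + 5 * q + 1) + 1) + (4 * q + 3) := by
        ring
      omega
    rw [e, Nat.mul_div_cancel_left _ (by norm_num)] at hk
    omega

end Pool.Agent.Results.MP_ab03e0_co.ModFour
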