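import Mathlib

/-! # MP_ab03e0_co, Q1: a quasigroup of order 17 satisfying `xy·y = x·xy`. -/

namespace Pool.Agent.Results.MP_ab03e0_co.OrderSeventeen

/-- `op` is a quasigroup operation. -/
def IsQuasigroup {S : Type} (op : S → S → S) : Prop :=
  (∀ a b, ∃! x, op a x = b) ∧ (∀ a b, ∃! x, op x a = b)

/-- the first row of the table -/
def f : Fin 17 → Fin 17 := ![0, 13, 9, 12, 1, 3, 7, 11, 2, 15, 6, 10, 14, 16, 5, 8, 4]

/-- the quasigroup `x y = x + f (y - x)` on `Z / 17` -/
def op (x y : Fin 17) : Fin 17 := x + f (y - x)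

theorem row_inj : ∀ a, Function.Injective (op a) := by decide +kernel

theorem col_inj : ∀ a, Function.Injective (fun x => op x a) := by decide +kernel

/-- There is a quasigroup of order 17 with `(xy)y = x(xy)` for all `x, y`. -/
theorem result : ∃ op : Fin 17 → Fin 17 → Fin 17,
    IsQuasigroup op ∧ ∀ x y, op (op x y) y = op x (op x y) := by
  refine ⟨op, ⟨fun a b => ?_, fun a b => ?_⟩, by decide +kernel⟩
  · exact (Finite.injective_iff_bijective.1 (row_inj a)).existsUnique b
  · exact (Finite.injective_iff_bijective.1 (col_inj a)).existsUnique b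

end Pool.Agent.Results.MP_ab03e0_co.OrderSeventeen
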